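import Mathlib

set_option autoImplicit false

namespace Pool.Agent.Results.MP_a8a70f_gt.K2

open Filter Topology Set

universe u v

def rel {Y : Type v} (A : Set Y) : Setoid Y where
  r x y := x = y ∨ (x ∈ A ∧ y ∈ A)
  iseqv := ⟨fun _ => Or.inl rfl, fun h => h.elim (fun e => Or.inl e.symm) fun e => Or.inr e.symm,
    fun h h' => by
      rcases h with rfl | h
      · exact h'
      · rcases h' with rfl | h'
        · exact Or.inr h
        · exact Or.inr ⟨h.1, h'.2⟩⟩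

def FMQ (Y : Type v) (A : Set Y) : Type v := Quotient (rel A)

def q {Y : Type v} (A : Set Y) : Y → FMQ Y A := Quotient.mk (rel A)

instance topo {Y : Type v} [TopologicalSpace Y] (A : Set Y) : TopologicalSpace (FMQ Y A) where
  IsOpen U := IsOpen (q A ⁻¹' U) ∧ ((∃ a ∈ A, q A a ∈ U) → Dense (q A ⁻¹' U))
  isOpen_univ := ⟨isOpen_univ, fun _ => dense_univ⟩
  isOpen_inter _ _ h h' := ⟨h.1.inter h'.1, fun ⟨a, h1, h2⟩ =>
    (h.2 ⟨a, h1, h2.1⟩).inter_of_isOpen_left (h'.2 ⟨a, h1, h2.2⟩) h.1⟩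
  isOpen_sUnion S h := ⟨by
    rw [preimage_sUnion]
    exact isOpen_biUnion fun U hU => (h U hU).1, fun ⟨a, h1, U, h2, h3⟩ =>
    ((h U h2).2 ⟨a, h1, h3⟩).mono (preimage_mono (subset_sUnion_of_mem h2))⟩

def K2Hausdorff (X : Type v) [TopologicalSpace X] : Prop :=
  ∀ (K : Type u) [TopologicalSpace K] [CompactSpace K] [T2Space K] (f : K → X), Continuous f →
    IsClosed {p : K × K | f p.1 = f p.2}

abbrev Rem : Type := {p : Ultrafilter ℕ // p ∉ range (pure : ℕ → Ultrafilter ℕ)}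

theorem inj {Y : Type v} {A : Set Y} {x y : Y} (hx : x ∉ A) (h : q A x = q A y) : x = y :=
  (Quotient.exact h).elim id fun h' => absurd h'.1 hx

theorem pre {Y : Type v} {A S : Set Y} (h : S ⊆ Aᶜ) : q A ⁻¹' (q A '' S) = S :=
  Subset.antisymm (fun _ ⟨_, h1, h2⟩ => inj (h h1) h2 ▸ h1) (subset_preimage_image _ _)

variable {Y : Type v} [TopologicalSpace Y] {A : Set Y}

theorem op (hA : IsClosed A) {U : Set Y} (hU : IsOpen U) : IsOpen (q A '' (U \ A)) :=
  ⟨by rw [pre fun _ h => h.2]; exact hU.sdiff hA,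
    fun ⟨_, h1, _, h2, h3⟩ => absurd (inj h2.2 h3 ▸ h1) h2.2⟩

theorem cl {N : Set Y} (h1 : IsClosed N) (h2 : Dense Nᶜ) (h3 : N ⊆ Aᶜ) : IsClosed (q A '' N) :=
  ⟨⟨by rw [preimage_compl, pre h3]; exact h1.isOpen_compl,
    fun _ => by rw [preimage_compl, pre h3]; exact h2⟩⟩

theorem key [T3Space Y] (hc : ∀ S : Set Y, S.Countable → IsNowhereDense S) (hA : IsClosed A)
    {K : Type u} [TopologicalSpace K] [CompactSpace K] [T2Space K] {f : K → FMQ Y A}
    (hf : Continuous f) {a b : K} {y z : Y} (hy : y ∉ A) (hz : z ∈ A) (ha : f a = q A y)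
    (hb : f b = q A z) (h : ∀ O O' : Set K, IsOpen O → IsOpen O' → a ∈ O → b ∈ O' →
      ∃ a' ∈ O, ∃ b' ∈ O', f a' = f b') : False := by
  have hc' : ∀ S : Set Y, S.Countable → Dense (closure S)ᶜ := fun S hS =>
    interior_eq_empty_iff_dense_compl.1 (hc S hS)
  obtain ⟨C, h1, h2, h3⟩ := exists_mem_nhds_isClosed_subset (hA.isOpen_compl.mem_nhds hy)
  obtain ⟨M, hM⟩ := zorn_subset {M : Set (Set Y) | M.PairwiseDisjoint id ∧
      ∀ U ∈ M, IsOpen U ∧ y ∉ closure U}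
    fun c hc hch => ⟨⋃₀ c, ⟨(pairwiseDisjoint_sUnion hch.directedOn).2 fun M hM => (hc hM).1,
      fun W ⟨M, hM, hW⟩ => (hc hM).2 W hW⟩, fun _ h => subset_sUnion_of_mem h⟩
  have hD : Dense (⋃₀ M) := by
    intro x
    by_contra hx
    obtain ⟨w, h4, h5⟩ := (hc' {y} (countable_singleton y)).inter_open_nonempty _
      isClosed_closure.isOpen_compl ⟨x, hx⟩
    obtain ⟨D, h6, h7, h8⟩ := exists_mem_nhds_isClosed_subset
      ((isClosed_closure.isOpen_compl.inter isClosed_closure.isOpen_compl).mem_nhds ⟨h4, h5⟩)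
    refine h4 (subset_closure ⟨interior D, hM.le_of_ge (y := insert (interior D) M)
      ⟨hM.prop.1.insert fun W hW _ => ?_, ?_⟩ (subset_insert _ _) (mem_insert _ _),
      mem_interior_iff_mem_nhds.2 h6⟩)
    · exact disjoint_left.2 fun t ht ht' =>
        (h8 (interior_subset ht)).1 (subset_closure ⟨W, hW, ht'⟩)
    · rintro W (rfl | hW)
      · exact ⟨isOpen_interior, fun h9 =>
          (h8 (closure_minimal interior_subset h7 h9)).2 (subset_closure rfl)⟩
      · exact hM.prop.2 W hW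
  have hN : IsClosed (q A '' (C \ ⋃₀ M)) :=
    cl (h2.sdiff (isOpen_sUnion fun U hU => (hM.prop.2 U hU).1))
      (hD.mono fun x hx hx' => hx'.2 hx) fun x hx => h3 hx.1
  obtain ⟨B, h4, h5, h6⟩ := exists_mem_nhds_isClosed_subset
    ((hN.preimage hf).isOpen_compl.mem_nhds (x := b) fun ⟨x, h4, h5⟩ =>
      h3 h4.1 (inj (h3 h4.1) (h5.trans hb) ▸ hz))
  have h7 : ∀ l ∈ B, ∀ c ∈ C, f l = q A c → c ∈ ⋃₀ M := fun l hl c hc e => by
    by_contra h7
    exact h6 hl ⟨c, ⟨hc, h7⟩, e.symm⟩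
  have hT : {U ∈ M | ∃ l ∈ B, ∃ c ∈ C, c ∈ U ∧ f l = q A c}.Finite := by
    by_contra hT
    have e := Set.Infinite.natEmbedding _ hT
    choose l a1 c a2 a3 a4 using fun n => (e n).2.2
    have a5 : closure (range c) ⊆ C := closure_minimal (range_subset_iff.2 a2) h2
    obtain ⟨V, b1, b2, b3⟩ := ((h5.inter ((cl isClosed_closure (hc' _ (countable_range c))
      (a5.trans h3)).preimage hf)).isCompact).elim_finite_subcover_image (b := M)
      (c := fun U => f ⁻¹' (q A '' (U \ A))) (fun U hU => (op hA (hM.prop.2 U hU).1).preimage hf)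
      (by
        rintro x ⟨b1, t, b2, b3⟩
        obtain ⟨U, b4, b5⟩ := h7 x b1 t (a5 b2) b3.symm
        exact mem_biUnion b4 ⟨t, ⟨b5, h3 (a5 b2)⟩, b3⟩)
    refine infinite_of_injective_forall_mem (Subtype.val_injective.comp e.injective)
      (fun n => ?_) b2
    obtain ⟨U, b4, t, b5, b6⟩ := mem_iUnion₂.1 (b3 ⟨a1 n, c n, subset_closure ⟨n, rfl⟩, (a4 n).symm⟩)
    obtain rfl := inj b5.2 (b6.trans (a4 n))
    exact show (e n).1 ∈ V from hM.prop.1.elim_set (b1 b4) (e n).2.1 _ b5.1 (a3 n) ▸ b4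
  obtain ⟨a', ⟨w, h8, h9⟩, b', h10, h11⟩ := h _ _ ((op hA (isOpen_interior (s := C).sdiff
    (hT.isClosed_biUnion fun U _ => isClosed_closure (s := U)))).preimage hf) isOpen_interior
    ⟨y, ⟨⟨mem_interior_iff_mem_nhds.2 h1, fun h8 => by
      obtain ⟨U, h9, h10⟩ := mem_iUnion₂.1 h8
      exact (hM.prop.2 U h9.1).2 h10⟩, hy⟩, ha.symm⟩ (mem_interior_iff_mem_nhds.2 h4)
  have h12 := (h9.trans h11).symm
  obtain ⟨U, h13, h14⟩ := h7 b' (interior_subset h10) w (interior_subset h8.1.1) h12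
  exact h8.1.2 (mem_biUnion ⟨h13, b', interior_subset h10, w, interior_subset h8.1.1, h14, h12⟩
    (subset_closure h14))

theorem gen [T3Space Y] (hc : ∀ S : Set Y, S.Countable → IsNowhereDense S) (hA : IsClosed A) :
    K2Hausdorff.{u} (FMQ Y A) := by
  intro K _ _ _ f hf
  refine isClosed_of_closure_subset fun ⟨a, b⟩ hab => ?_
  have h : ∀ O O' : Set K, IsOpen O → IsOpen O' → a ∈ O → b ∈ O' →
      ∃ a' ∈ O, ∃ b' ∈ O', f a' = f b' := fun O O' h1 h2 h3 h4 => by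
    obtain ⟨p, h5, h6⟩ := mem_closure_iff.1 hab _ (h1.prod h2) ⟨h3, h4⟩
    exact ⟨p.1, h5.1, p.2, h5.2, h6⟩
  obtain ⟨y, hy⟩ : ∃ y, q A y = f a := Quotient.exists_rep (f a)
  obtain ⟨z, hz⟩ : ∃ z, q A z = f b := Quotient.exists_rep (f b)
  by_cases h1 : y ∈ A <;> by_cases h2 : z ∈ A
  · exact hy.symm.trans ((Quotient.sound (Or.inr ⟨h1, h2⟩) : q A y = q A z).trans hz)
  · exact (key hc hA hf h2 h1 hz.symm hy.symm fun O O' a1 a2 a3 a4 => by
      obtain ⟨a', b1, b', b2, b3⟩ := h O' O a2 a1 a4 a3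
      exact ⟨b', b2, a', b1, b3.symm⟩).elim
  · exact (key hc hA hf h1 h2 hy.symm hz.symm h).elim
  · by_contra h3
    obtain ⟨U, V, a1, a2, a3, a4, a5⟩ := t2_separation (show y ≠ z from fun e =>
      h3 (hy.symm.trans (e ▸ hz)))
    obtain ⟨a', ⟨s, b1, b2⟩, b', ⟨t, b3, b4⟩, b5⟩ := h _ _ ((op hA a1).preimage hf)
      ((op hA a2).preimage hf) ⟨y, ⟨a3, h1⟩, hy⟩ ⟨z, ⟨a4, h2⟩, hz⟩
    obtain rfl := inj b1.2 (b2.trans (b5.trans b4.symm))
    exact disjoint_left.1 a5 b1.1 b3.1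

theorem fin (p : Rem) {B : Set ℕ} (h : B ∈ p.1) : B.Infinite := fun hB => by
  obtain ⟨n, -, h1⟩ := Ultrafilter.eq_pure_of_finite_mem hB h
  exact p.2 ⟨n, h1.symm⟩

theorem nwd (S : Set Rem) (hS : S.Countable) : IsNowhereDense S := by
  refine interior_eq_empty_iff_dense_compl.2 (dense_iff_inter_open.2 ?_)
  rintro _ ⟨W, hW, rfl⟩ ⟨p, hp⟩
  obtain ⟨_, ⟨B, rfl⟩, h1, h2⟩ := ultrafilterBasis_is_basis.exists_subset_of_mem_open hp hW
  have e := Set.Infinite.natEmbedding _ (fin p h1)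
  let g : (ℕ → Bool) → ℕ → ℕ := fun r n => e (Encodable.encode ((List.range n).map r))
  have g1 : ∀ r s n m, g r n = g s m → n = m ∧ ∀ i < n, r i = s i := fun r s n m h => by
    have h3 := Encodable.encode_injective (e.injective (Subtype.ext h))
    obtain rfl : n = m := by simpa using congrArg List.length h3
    exact ⟨rfl, fun i hi => List.map_inj_left.1 h3 i (List.mem_range.2 hi)⟩
  have g2 : (⋃ s ∈ S, {r | range (g r) ∈ s.1}).Countable := by
    refine hS.biUnion fun s _ => Set.Subsingleton.countable fun r hr r' hr' => funext fun i => ?_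
    obtain ⟨_, ⟨⟨n, rfl⟩, m, h3⟩, h4⟩ := (fin s (inter_mem hr hr')).exists_notMem_finite
      ((finite_le_nat i).image (g r))
    obtain ⟨rfl, h5⟩ := g1 _ _ _ _ h3.symm
    exact h5 i (lt_of_not_ge fun h6 => h4 ⟨_, h6, rfl⟩)
  obtain ⟨r, hr⟩ : ∃ r, r ∉ ⋃ s ∈ S, {r | range (g r) ∈ s.1} := by
    by_contra h
    push Not at h
    rw [eq_univ_of_forall h, countable_univ_iff, ← Cardinal.mk_le_aleph0_iff] at g2
    exact g2.not_gt (by simpa using Cardinal.aleph0_lt_continuum)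
  haveI := (infinite_range_of_injective fun n m h => (g1 r r n m h).1).cofinite_inf_principal_neBot
  have h3 := Ultrafilter.of_le (cofinite ⊓ 𝓟 (range (g r)))
  have h4 : range (g r) ∈ Ultrafilter.of (cofinite ⊓ 𝓟 (range (g r))) :=
    h3 (mem_inf_of_right (mem_principal_self _))
  refine ⟨⟨Ultrafilter.of (cofinite ⊓ 𝓟 (range (g r))), fun ⟨n, hn⟩ => ?_⟩,
    h2 (mem_of_superset h4 (range_subset_iff.2 fun n => (e _).2)), fun h5 => ?_⟩
  · have h5 := h3 (mem_inf_of_left (finite_singleton n).compl_mem_cofinite)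
    rw [← hn] at h5
    exact h5 rfl
  · obtain ⟨s, h6, h7⟩ := mem_closure_iff.1 h5 _
      ((ultrafilter_isOpen_basic (range (g r))).preimage continuous_subtype_val) h4
    exact hr (mem_biUnion h7 h6)

theorem result (A : Set Rem) (hA : IsClosed A) : K2Hausdorff.{u} (FMQ Rem A) := gen nwd hA

end Pool.Agent.Results.MP_a8a70f_gt.K2
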